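import Mathlib

/-!
# The exponent `-1/2` in the discrepancy question cannot be improved

For every elliptic curve `E/ℚ` and every `s ≥ 1`, the discrepancy (even the star discrepancy) of
the `s`-tuples of consecutive Frobenius angles is at least an absolute positive constant times
`(K log K)^(-1/2)` for all `K ≥ 2`.

The reason: if `a_p ≤ -1` then the angle of `p` is at least `1/2 + 1/(2π√p)`, if `a_p ≥ 0` it is at
most `1/2`; so none of the first `K` angles lies in the open interval from `1/2` to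
`1/2 + 1/(2π√p_K)`, whose Sato-Tate measure is about `1/(π√p_K)`.
-/

namespace Pool.Agent.Results.MP_29be01_nt.ExponentOptimal

open MeasureTheory WeierstrassCurve Set

/-- `E` has good reduction at `p` (equivalently, `p` does not divide the conductor of `E`): a
minimal Weierstrass equation of `E` over `ℚ_p` has good reduction. -/
def GoodAt (E : WeierstrassCurve ℚ) (p : ℕ) [Fact p.Prime] : Prop :=
  ((E.baseChange ℚ_[p]).minimal ℤ_[p]).HasGoodReduction ℤ_[p]

/-- The trace of Frobenius `a_p = p + 1 - #E(𝔽_p)`, where the points are those (including the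
point at infinity) of the reduction of a minimal Weierstrass equation of `E` at `p`. -/
noncomputable def frobTrace (E : WeierstrassCurve ℚ) (p : ℕ) [Fact p.Prime] : ℤ :=
  (p : ℤ) + 1 -
    (Nat.card (((E.baseChange ℚ_[p]).minimal ℤ_[p]).reduction ℤ_[p]).toAffine.Point : ℤ)

instance factPrime (k : ℕ) : Fact (Nat.nth Nat.Prime k).Prime := ⟨Nat.prime_nth_prime k⟩

open Classical in
/-- The angle `x ∈ [0,1]` attached to the `(k+1)`-st prime `p = Nat.nth Nat.Prime k`
(so `k = 0` is the prime `2`): if `E` has good reduction at `p`, then `x = arccos(a_p/(2√p))/π`,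
that is `a_p = 2√p cos(πx)`; otherwise `x = 1/2`. -/
noncomputable def angle (E : WeierstrassCurve ℚ) (k : ℕ) : ℝ :=
  if GoodAt E (Nat.nth Nat.Prime k) then
    Real.arccos ((frobTrace E (Nat.nth Nat.Prime k) : ℝ) / (2 * √(Nat.nth Nat.Prime k : ℝ))) /
      Real.pi
  else 1 / 2

/-- The Sato-Tate measure `2 sin²(πu) du` on `[0,1]`. -/
noncomputable def satoTate : Measure ℝ :=
  (volume.restrict (Icc (0 : ℝ) 1)).withDensity
    (fun u => ENNReal.ofReal (2 * Real.sin (Real.pi * u) ^ 2))

/-- The half-open box `∏ [a_i, b_i)`. -/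
def box {s : ℕ} (a b : Fin s → ℝ) : Set (Fin s → ℝ) := Set.univ.pi fun i => Ico (a i) (b i)

open Classical in
/-- The number of `1 ≤ k ≤ K` for which the tuple `(x_k, …, x_{k+s-1})` lies in the box
`∏ [a_i, b_i)`. (The index `k` of the text is `k + 1` here.) -/
noncomputable def boxCount (E : WeierstrassCurve ℚ) {s : ℕ} (a b : Fin s → ℝ) (K : ℕ) : ℕ :=
  ((Finset.range K).filter fun k => (fun i : Fin s => angle E (k + i)) ∈ box a b).card

/-- The local discrepancy of the box `∏ [a_i, b_i)`: the absolute difference between the proportion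
of tuples in the box and its measure for the `s`-fold product of the Sato-Tate measure. -/
noncomputable def localDisc (E : WeierstrassCurve ℚ) {s : ℕ} (a b : Fin s → ℝ) (K : ℕ) : ℝ :=
  |(boxCount E a b K : ℝ) / K - (Measure.pi (fun _ : Fin s => satoTate)).real (box a b)|

/-- The extreme discrepancy `D_K^{[s]}`: supremum over all boxes `∏ [a_i, b_i) ⊆ [0,1]^s`. -/
noncomputable def extremeDisc (E : WeierstrassCurve ℚ) (s K : ℕ) : ℝ :=
  sSup {r | ∃ a b : Fin s → ℝ, (∀ i, 0 ≤ a i ∧ a i ≤ b i ∧ b i ≤ 1) ∧ r = localDisc E a b K}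

/-- The star discrepancy `D_K^{*,[s]}`: supremum over all boxes `∏ [0, w_i) ⊆ [0,1]^s`. -/
noncomputable def starDisc (E : WeierstrassCurve ℚ) (s K : ℕ) : ℝ :=
  sSup {r | ∃ w : Fin s → ℝ, (∀ i, 0 ≤ w i ∧ w i ≤ 1) ∧ r = localDisc E (fun _ => 0) w K}

/-! ### The Sato-Tate measure -/

lemma cont_density : Continuous (fun u : ℝ => 2 * Real.sin (Real.pi * u) ^ 2) := by fun_prop

lemma satoTate_Ico (a b : ℝ) (h0 : 0 ≤ a) (hab : a ≤ b) (h1 : b ≤ 1) :
    satoTate (Ico a b) = ENNReal.ofReal (∫ u in a..b, 2 * Real.sin (Real.pi * u) ^ 2) := by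
  rw [satoTate, withDensity_apply _ measurableSet_Ico, Measure.restrict_restrict measurableSet_Ico]
  have h : Ico a b ∩ Icc 0 1 = Ico a b :=
    inter_eq_left.mpr (fun x hx => ⟨h0.trans hx.1, hx.2.le.trans h1⟩)
  rw [h, intervalIntegral.integral_of_le hab, ← integral_Icc_eq_integral_Ioc,
    integral_Icc_eq_integral_Ico, ofReal_integral_eq_lintegral_ofReal]
  · exact (cont_density.integrableOn_Icc (a := a) (b := b)).mono_set Ico_subset_Icc_self
  · exact Filter.Eventually.of_forall (fun u => by positivity)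

lemma integral_density (a b : ℝ) : ∫ u in a..b, 2 * Real.sin (Real.pi * u) ^ 2 =
    (Real.sin (Real.pi * a) * Real.cos (Real.pi * a) - Real.sin (Real.pi * b) *
      Real.cos (Real.pi * b) + Real.pi * b - Real.pi * a) / Real.pi := by
  rw [intervalIntegral.integral_const_mul]
  have := intervalIntegral.integral_comp_mul_left (a := a) (b := b)
    (fun x => Real.sin x ^ 2) Real.pi_ne_zero
  rw [this, integral_sin_sq]
  have := Real.pi_pos
  simp only [smul_eq_mul]
  field_simp

lemma satoTate_Ico_one : satoTate (Ico 0 1) = 1 := by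
  rw [satoTate_Ico 0 1 le_rfl zero_le_one le_rfl, integral_density]
  simp [Real.pi_ne_zero]

instance : IsProbabilityMeasure satoTate := by
  refine ⟨?_⟩
  have h : satoTate univ = satoTate (Ico 0 1) := by
    rw [satoTate, withDensity_apply _ MeasurableSet.univ, withDensity_apply _ measurableSet_Ico,
      Measure.restrict_restrict MeasurableSet.univ, Measure.restrict_restrict measurableSet_Ico,
      univ_inter]
    have h : Ico (0 : ℝ) 1 ∩ Icc 0 1 = Ico 0 1 := inter_eq_left.mpr Ico_subset_Icc_self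
    rw [h]
    exact setLIntegral_congr Ico_ae_eq_Icc.symm
  rw [h, satoTate_Ico_one]

lemma real_box {s : ℕ} (a b : Fin s → ℝ) :
    (Measure.pi (fun _ : Fin s => satoTate)).real (box a b) =
      ∏ i, satoTate.real (Ico (a i) (b i)) := by
  rw [measureReal_def, box, Measure.pi_pi, ENNReal.toReal_prod]
  rfl

lemma boxCount_le (E : WeierstrassCurve ℚ) {s : ℕ} (a b : Fin s → ℝ) (K : ℕ) :
    boxCount E a b K ≤ K := by
  classical
  unfold boxCount
  exact (Finset.card_filter_le _ _).trans (by simp)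

lemma localDisc_le_one (E : WeierstrassCurve ℚ) {s : ℕ} (a b : Fin s → ℝ) (K : ℕ) :
    localDisc E a b K ≤ 1 := by
  unfold localDisc
  have h1 : (0 : ℝ) ≤ (boxCount E a b K : ℝ) / K := by positivity
  have h2 : (boxCount E a b K : ℝ) / K ≤ 1 := by
    apply div_le_one_of_le₀ _ (Nat.cast_nonneg _)
    exact_mod_cast boxCount_le E a b K
  have h3 : 0 ≤ (Measure.pi (fun _ : Fin s => satoTate)).real (box a b) := measureReal_nonneg
  have h4 : (Measure.pi (fun _ : Fin s => satoTate)).real (box a b) ≤ 1 := measureReal_le_one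
  rw [abs_le]
  constructor <;> linarith

lemma star_bdd (E : WeierstrassCurve ℚ) (s K : ℕ) : BddAbove
    {r | ∃ w : Fin s → ℝ, (∀ i, 0 ≤ w i ∧ w i ≤ 1) ∧ r = localDisc E (fun _ => 0) w K} := by
  refine ⟨1, ?_⟩
  rintro r ⟨w, -, rfl⟩
  exact localDisc_le_one _ _ _ _

lemma extreme_bdd (E : WeierstrassCurve ℚ) (s K : ℕ) : BddAbove
    {r | ∃ a b : Fin s → ℝ, (∀ i, 0 ≤ a i ∧ a i ≤ b i ∧ b i ≤ 1) ∧ r = localDisc E a b K} := by
  refine ⟨1, ?_⟩
  rintro r ⟨a, b, -, rfl⟩
  exact localDisc_le_one _ _ _ _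

lemma star_le_extreme (E : WeierstrassCurve ℚ) (s K : ℕ) : starDisc E s K ≤ extremeDisc E s K := by
  apply csSup_le_csSup (extreme_bdd E s K)
  · exact ⟨_, fun _ => 0, fun _ => ⟨le_rfl, zero_le_one⟩, rfl⟩
  · rintro r ⟨w, hw, rfl⟩
    exact ⟨fun _ => 0, w, fun i => ⟨le_rfl, (hw i).1, (hw i).2⟩, rfl⟩

/-! ### The gap next to `1/2` -/

lemma angle_gap (E : WeierstrassCurve ℚ) (k K : ℕ) (hk : k < K) :
    angle E k ≤ 1 / 2 ∨
      1 / 2 + 1 / (2 * Real.pi * √(Nat.nth Nat.Prime (K - 1) : ℝ)) ≤ angle E k := by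
  have hpp : (2 : ℝ) ≤ (Nat.nth Nat.Prime k : ℝ) := by
    exact_mod_cast (Nat.prime_nth_prime k).two_le
  have hpP : (Nat.nth Nat.Prime k : ℝ) ≤ (Nat.nth Nat.Prime (K - 1) : ℝ) := by
    have : Nat.nth Nat.Prime k ≤ Nat.nth Nat.Prime (K - 1) :=
      Nat.nth_monotone Nat.infinite_setOfPred_prime (by omega)
    exact_mod_cast this
  set P : ℝ := (Nat.nth Nat.Prime (K - 1) : ℝ) with hP
  set p : ℝ := (Nat.nth Nat.Prime k : ℝ) with hp
  have hsp : 0 < √p := Real.sqrt_pos.mpr (by linarith)
  have hsP : 0 < √P := Real.sqrt_pos.mpr (by linarith)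
  have hss : √p ≤ √P := Real.sqrt_le_sqrt hpP
  have hs1 : 1 ≤ √P := by
    rw [Real.one_le_sqrt]; linarith
  have hpi := Real.pi_pos
  unfold angle
  split_ifs with hgood
  · rcases le_or_gt 0 (frobTrace E (Nat.nth Nat.Prime k)) with h | h
    · left
      have h1 : Real.arccos ((frobTrace E (Nat.nth Nat.Prime k) : ℝ) / (2 * √p)) ≤
          Real.pi / 2 := by
        rw [Real.arccos_le_pi_div_two]
        have : (0 : ℝ) ≤ (frobTrace E (Nat.nth Nat.Prime k) : ℝ) := by exact_mod_cast h
        positivity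
      rw [div_le_iff₀ hpi]
      linarith
    · right
      have h1 : ((frobTrace E (Nat.nth Nat.Prime k) : ℤ) : ℝ) ≤ -1 := by
        exact_mod_cast Int.le_sub_one_of_lt h
      have h2 : ((frobTrace E (Nat.nth Nat.Prime k) : ℤ) : ℝ) / (2 * √p) ≤
          -(1 / (2 * √P)) := by
        rw [div_le_iff₀ (by positivity)]
        have : 1 / (2 * √P) * (2 * √p) ≤ 1 := by
          rw [div_mul_eq_mul_div, one_mul, div_le_one (by positivity)]
          linarith
        linarith
      have h3 := Real.arccos_le_arccos h2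
      rw [Real.arccos_neg, Real.arccos] at h3
      have h4 : 1 / (2 * √P) ≤ Real.arcsin (1 / (2 * √P)) := by
        have h5 : 0 ≤ 1 / (2 * √P) := by positivity
        have h6 : 1 / (2 * √P) ≤ 1 := by
          rw [div_le_one (by positivity)]; linarith
        have h7 := Real.sin_le (Real.arcsin_nonneg.mpr h5)
        rwa [Real.sin_arcsin (by linarith) h6] at h7
      rw [le_div_iff₀ hpi]
      have h8 : (1 / 2 + 1 / (2 * Real.pi * √P)) * Real.pi = Real.pi / 2 + 1 / (2 * √P) := by
        field_simp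
      rw [h8]
      linarith
  · left; exact le_rfl

lemma measure_gap (g : ℝ) (hg0 : 0 < g) (hg : Real.pi * g ≤ 2 / 5) :
    (2 / 5) * g ≤ ∫ u in (1 / 2 + g / 2)..(1 / 2 + g), 2 * Real.sin (Real.pi * u) ^ 2 := by
  have hpi := Real.pi_pos
  have h1 : ∫ u in (1 / 2 + g / 2)..(1 / 2 + g), (4 / 5 : ℝ) = (2 / 5) * g := by
    rw [intervalIntegral.integral_const]; simp only [smul_eq_mul]; ring
  rw [← h1]
  apply intervalIntegral.integral_mono_on (by linarith)
  · exact continuous_const.intervalIntegrable _ _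
  · exact cont_density.intervalIntegrable _ _
  · intro u hu
    have h2 : Real.sin (Real.pi * u) = Real.cos (Real.pi * (u - 1 / 2)) := by
      rw [← Real.cos_sub_pi_div_two]; congr 1; ring
    rw [h2]
    have h3 : 0 ≤ Real.pi * (u - 1 / 2) := by
      apply mul_nonneg hpi.le; linarith [hu.1]
    have h4 : Real.pi * (u - 1 / 2) ≤ 2 / 5 := by
      have : Real.pi * (u - 1 / 2) ≤ Real.pi * g :=
        mul_le_mul_of_nonneg_left (by linarith [hu.2]) hpi.le
      linarith
    have h5 := Real.one_sub_sq_div_two_le_cos (x := Real.pi * (u - 1 / 2))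
    have h6 : (Real.pi * (u - 1 / 2)) ^ 2 ≤ (2 / 5) ^ 2 := by
      exact pow_le_pow_left₀ h3 h4 2
    have h7 : (23 / 25 : ℝ) ≤ Real.cos (Real.pi * (u - 1 / 2)) := by
      nlinarith
    nlinarith

/-! ### Chebyshev's bound for the `K`-th prime -/

lemma nth_prime_le (K : ℕ) (hK : 2 ≤ K) :
    (Nat.nth Nat.Prime (K - 1) : ℝ) ≤ 45 * (K * Real.log K) := by
  set P : ℕ := Nat.nth Nat.Prime (K - 1) with hP
  have hP3 : 3 ≤ P := by
    have h1 : Nat.nth Nat.Prime 1 ≤ P := Nat.nth_monotone Nat.infinite_setOfPred_prime (by omega)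
    have h2 : Nat.nth Nat.Prime 1 = 3 := Nat.nth_prime_one_eq_three
    omega
  have hcount : Nat.primeCounting P = K := by
    have h1 : Nat.primeCounting' P = K - 1 := Nat.primeCounting'_nth_eq (K - 1)
    have h2 : Nat.primeCounting P = Nat.primeCounting' P + 1 := by
      unfold Nat.primeCounting Nat.primeCounting'
      rw [Nat.count_succ, if_pos (Nat.prime_nth_prime (K - 1))]
    omega
  have hPR : (3 : ℝ) ≤ P := by exact_mod_cast hP3
  have hKR : (2 : ℝ) ≤ K := by exact_mod_cast hK
  have hlogP : 0 < Real.log P := Real.log_pos (by linarith)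
  have hch := Chebyshev.pi_ge P
  rw [hcount, div_le_iff₀ hlogP] at hch
  have hlog2 := Real.log_two_gt_d9
  have hlog2' := Real.log_two_lt_d9
  have h1 : Real.log ((P : ℝ) + 1) ≤ 2 * Real.log 2 + ((P : ℝ) - 3) / 4 := by
    have h2 : (P : ℝ) + 1 = 2 * 2 * (((P : ℝ) + 1) / 4) := by ring
    rw [h2, Real.log_mul (by norm_num) (by positivity), Real.log_mul (by norm_num) (by norm_num)]
    have h3 := Real.log_le_sub_one_of_pos (x := ((P : ℝ) + 1) / 4) (by positivity)
    linarith
  have h2 : (P : ℝ) ≤ 5 * (K * Real.log P) := by nlinarith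
  have h3 : Real.log P ≤ 2 * √(P : ℝ) := by
    have h4 : Real.log (√(P : ℝ)) ≤ √(P : ℝ) - 1 :=
      Real.log_le_sub_one_of_pos (Real.sqrt_pos.mpr (by linarith))
    rw [Real.log_sqrt (by linarith)] at h4
    linarith
  have hs0 : 0 < √(P : ℝ) := Real.sqrt_pos.mpr (by linarith)
  have hsq : √(P : ℝ) * √(P : ℝ) = P := Real.mul_self_sqrt (by linarith)
  have h4 : √(P : ℝ) ≤ 10 * K := by
    have h5 : (P : ℝ) ≤ 5 * (K * (2 * √(P : ℝ))) := by
      refine h2.trans ?_
      gcongr
    have h6 : √(P : ℝ) * √(P : ℝ) ≤ (10 * K) * √(P : ℝ) := by rw [hsq]; linarith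
    exact le_of_mul_le_mul_right h6 hs0
  have h5 : Real.log P ≤ 9 * Real.log K := by
    have h6 : (P : ℝ) ≤ 2 ^ 7 * (K : ℝ) ^ 2 := by
      have : √(P : ℝ) * √(P : ℝ) ≤ (10 * K) * (10 * K) :=
        mul_le_mul h4 h4 hs0.le (by positivity)
      rw [hsq] at this
      nlinarith
    have h7 := Real.log_le_log (by linarith) h6
    rw [Real.log_mul (by positivity) (by positivity), Real.log_pow, Real.log_pow] at h7
    have h8 : Real.log 2 ≤ Real.log K := Real.log_le_log (by norm_num) hKR
    push_cast at h7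
    linarith
  have h6 : 5 * (K * Real.log P) ≤ 5 * (K * (9 * Real.log K)) := by gcongr
  linarith

/-- For every elliptic curve `E` over `ℚ` (with or without complex multiplication), every `s ≥ 1`
and every `K ≥ 2`, the star discrepancy, and hence the extreme discrepancy, of the first `K`
tuples of `s` consecutive Frobenius angles is at least `1 / (250 √(K log K))`. -/
theorem result : ∀ (E : WeierstrassCurve ℚ) [E.IsElliptic] (s : ℕ), 1 ≤ s → ∀ K : ℕ, 2 ≤ K →
    1 / (250 * √(K * Real.log K)) ≤ starDisc E s K ∧ starDisc E s K ≤ extremeDisc E s K := by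
  intro E _ s hs K hK
  refine ⟨?_, star_le_extreme E s K⟩
  obtain ⟨t, rfl⟩ : ∃ t, s = t + 1 := ⟨s - 1, by omega⟩
  have hpi := Real.pi_pos
  have hpi3 := Real.pi_gt_three
  have hpi4 := Real.pi_lt_d2
  have hPle := nth_prime_le K hK
  have hP2 : (3 : ℝ) ≤ (Nat.nth Nat.Prime (K - 1) : ℝ) := by
    have h1 : Nat.nth Nat.Prime 1 ≤ Nat.nth Nat.Prime (K - 1) :=
      Nat.nth_monotone Nat.infinite_setOfPred_prime (by omega)
    have h2 : Nat.nth Nat.Prime 1 = 3 := Nat.nth_prime_one_eq_three
    rw [h2] at h1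
    exact_mod_cast h1
  have hgap := fun k (hk : k < K) => angle_gap E k K hk
  set P : ℝ := (Nat.nth Nat.Prime (K - 1) : ℝ) with hP
  set g : ℝ := 1 / (2 * Real.pi * √P) with hg
  have hsP : 0 < √P := Real.sqrt_pos.mpr (by linarith)
  have hsP1 : (5 / 4 : ℝ) ≤ √P := Real.le_sqrt_of_sq_le (by norm_num; linarith)
  have hg0 : 0 < g := by positivity
  have hpig : Real.pi * g ≤ 2 / 5 := by
    have : Real.pi * g = 1 / (2 * √P) := by rw [hg]; field_simp
    rw [this, div_le_div_iff₀ (by positivity) (by norm_num)]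
    linarith
  have hg2 : g ≤ 2 / 15 := by nlinarith
  -- the two boxes
  set w : Fin (t + 1) → ℝ := Fin.cons (1 / 2 + g) (fun _ => 1) with hw
  set w' : Fin (t + 1) → ℝ := Fin.cons (1 / 2 + g / 2) (fun _ => 1) with hw'
  have hcount : boxCount E (fun _ => 0) w K = boxCount E (fun _ => 0) w' K := by
    classical
    unfold boxCount
    congr 1
    apply Finset.filter_congr
    intro k hk
    rw [Finset.mem_range] at hk
    simp only [box, Set.mem_univ_pi]
    rw [Fin.forall_fin_succ, Fin.forall_fin_succ]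
    simp only [hw, hw', Fin.cons_zero, Fin.cons_succ, Set.mem_Ico]
    refine and_congr_left (fun _ => and_congr_right (fun _ => ?_))
    have hg' := hgap (k + ((0 : Fin (t + 1)) : ℕ)) (by simpa using hk)
    constructor
    · intro h
      rcases hg' with h1 | h1
      · linarith
      · exact absurd h (not_lt.mpr h1)
    · intro h; linarith
  have hmeas : ∀ c : ℝ, 0 ≤ c → c ≤ 1 → (Measure.pi (fun _ : Fin (t + 1) => satoTate)).real
      (box (fun _ => 0) (Fin.cons c (fun _ => 1) : Fin (t + 1) → ℝ)) =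
      ∫ u in (0 : ℝ)..c, 2 * Real.sin (Real.pi * u) ^ 2 := by
    intro c h0 h1
    rw [real_box, Fin.prod_univ_succ]
    simp only [Fin.cons_zero, Fin.cons_succ, measureReal_def, satoTate_Ico_one,
      ENNReal.toReal_one, Finset.prod_const_one, mul_one]
    rw [satoTate_Ico 0 c le_rfl h0 h1, ENNReal.toReal_ofReal]
    exact intervalIntegral.integral_nonneg h0 (fun u _ => by positivity)
  have hm1 := hmeas (1 / 2 + g) (by linarith) (by linarith)
  have hm2 := hmeas (1 / 2 + g / 2) (by linarith) (by linarith)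
  have hdiff := intervalIntegral.integral_add_adjacent_intervals
    (cont_density.intervalIntegrable (μ := volume) 0 (1 / 2 + g / 2))
    (cont_density.intervalIntegrable (μ := volume) (1 / 2 + g / 2) (1 / 2 + g))
  have hgm := measure_gap g hg0 hpig
  have hA : localDisc E (fun _ => 0) w K ≤ starDisc E (t + 1) K := by
    apply le_csSup (star_bdd E (t + 1) K)
    refine ⟨w, ?_, rfl⟩
    intro i
    refine Fin.cases ?_ (fun j => ?_) i
    · simp only [hw, Fin.cons_zero]; constructor <;> linarith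
    · simp [hw]
  have hB : localDisc E (fun _ => 0) w' K ≤ starDisc E (t + 1) K := by
    apply le_csSup (star_bdd E (t + 1) K)
    refine ⟨w', ?_, rfl⟩
    intro i
    refine Fin.cases ?_ (fun j => ?_) i
    · simp only [hw', Fin.cons_zero]; constructor <;> linarith
    · simp [hw']
  have hC : (2 / 5) * g ≤ localDisc E (fun _ => 0) w K + localDisc E (fun _ => 0) w' K := by
    unfold localDisc
    rw [hcount, hm1, hm2]
    set q := (boxCount E (fun _ => 0) w' K : ℝ) / K
    set I1 := ∫ u in (0 : ℝ)..(1 / 2 + g), 2 * Real.sin (Real.pi * u) ^ 2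
    set I2 := ∫ u in (0 : ℝ)..(1 / 2 + g / 2), 2 * Real.sin (Real.pi * u) ^ 2
    have h1 := neg_abs_le (q - I1)
    have h2 := le_abs_self (q - I2)
    have h3 : (2 / 5) * g ≤ I1 - I2 := by rw [← hdiff]; linarith
    linarith
  have hD : (1 / 5) * g ≤ starDisc E (t + 1) K := by linarith
  refine le_trans ?_ hD
  have hKlog : √P ≤ 7 * √(K * Real.log K) := by
    have h1 : √P ≤ √(7 ^ 2 * (K * Real.log K)) := by
      apply Real.sqrt_le_sqrt
      have : 0 ≤ (K : ℝ) * Real.log K := by positivity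
      linarith
    rwa [Real.sqrt_mul (by norm_num), Real.sqrt_sq (by norm_num)] at h1
  have hpos : 0 < √(K * Real.log K) := by
    by_contra hcon
    have : √((K : ℝ) * Real.log K) ≤ 0 := not_lt.mp hcon
    linarith
  rw [hg, div_mul_div_comm, div_le_div_iff₀ (by positivity) (by positivity)]
  nlinarith [mul_pos hpi hsP]

end Pool.Agent.Results.MP_29be01_nt.ExponentOptimal
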