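import Mathlib
import Pool.Agent.DEU.Final

/-!
# The square root bound for the discrepancy of consecutive Frobenius angles, for almost all curves

For every `η > 0` there are constants `C(s, ε)` such that in every box of integer pairs `(a, b)`
with sides `X` and `Y`, all but at most `η X Y` of the curves `E : y² = x³ + ax + b` satisfy
`D_K^{[s]} ≤ C(s, ε) K^{ε - 1/2}` for all `s ≥ 1`, all `ε > 0` and all `K ≥ 1` with
`K^{C(s, ε)} ≤ min(X, Y)` at once.

The moments over the box reduce this to two statements about the distribution of the trace of
Frobenius over all curves modulo `p`: the average over the first `K` primes of its deviation from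
the Sato-Tate measure is `O(K^{ε-1/2})`, and the mean square of its discrepancy is `O(K^{ε-1/2})`.
The upper half of these is enough, by complementation. The number of curves modulo `p` with given
trace `t` is bounded by class numbers of discriminant `t² - 4p` (the inequality of Deuring's
theorem that is needed is proved by Kronecker's congruence for the modular equation, the Hasse
invariant and a valuation argument for the values of `E₄E₆/Δ` at the `p + 1` neighbours of a
lattice); the class numbers are bounded by a sum over the solutions of `s² - ts + p ≡ 0 (mod a)`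
with a smooth positive weight (two-dimensional Poisson summation); its error term is a sum of
Kloosterman sums, which is estimated on average over `p` by the large sieve.
-/

namespace Pool.Agent.Results.MP_29be01_nt.SquareRootAlmostAll

open Pool.Agent.H11.STA Finset

open Classical in
/-- For every `η > 0` there are constants `C s ε > 0` such that for every box of integer pairs
`(a, b)` with `X` values of `a` and `Y` values of `b`, all but at most `η X Y` of the curves
`E : y² = x³ + ax + b` satisfy `D_K^{[s]}(E) ≤ C s ε K^{ε-1/2}` for all `s ≥ 1`, all `ε > 0` and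
all `K ≥ 1` with `K^{C s ε} ≤ min(X, Y)`. -/
theorem result : ∀ η : ℝ, 0 < η → ∃ C : ℕ → ℝ → ℝ, (∀ s ε, 0 < C s ε) ∧
    ∀ (A B : ℤ) (X Y : ℕ),
      (((Ico A (A + X) ×ˢ Ico B (B + Y)).filter (fun w : ℤ × ℤ =>
        ¬ ∀ s : ℕ, 1 ≤ s → ∀ ε : ℝ, 0 < ε → ∀ K : ℕ, 1 ≤ K →
          (K : ℝ) ^ C s ε ≤ min (X : ℝ) Y →
          extremeDisc (shortCurve (w.1 : ℚ) (w.2 : ℚ)) s K ≤
            C s ε * (K : ℝ) ^ (ε - 1 / 2))).card : ℝ) ≤ η * (X * Y) :=
  Pool.Agent.DEU.final

end Pool.Agent.Results.MP_29be01_nt.SquareRootAlmostAll
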