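import Mathlib
import Pool.Agent.H13.TWJ.Final

/-!
# The discrepancy of consecutive Frobenius angles in families of quadratic twists

Let `E : y² = x³ + ax + b` be an elliptic curve with integer coefficients and `E_d` its quadratic
twist `y² = x³ + d²ax + d³b`.

(1) For all but a proportion `η` of the integers `d` in an interval of length `X` and for all `K`
with `K^C ≤ X` the discrepancy of the `s`-tuples of consecutive angles of `E_d` is within
`C K^(ε-1/2)` of the folded discrepancy of `E`, in which every angle `x` of `E` is replaced by `x`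
or `1 - x` with equal weights. In particular it is at most twice the discrepancy of `E`, plus
`C K^(ε-1/2)`.

(2) Let `E_{j,d}` be the twist by `d` of the curve `y² = x³ + 3j(1728-j)x + 2j(1728-j)²` with
`j`-invariant `j`. For all but a proportion `η` of the integers `j` in an interval of length `X`
the folded discrepancies of all the twists `E_{j,d}` are at most `C K^(ε-1/2) + s ω_K(d)/K`, where
`ω_K(d)` is the number of the first `K` primes that divide `d`, for all `s`, `ε` and `K^C ≤ X`; and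
all but a proportion `η` of the twists with `d` in any interval of length `Y` satisfy the conjectured
bound `D_K^{[s]} ≤ C K^(ε-1/2)` for all `s`, `ε` and all `K` with `K^C ≤ min(X, Y)`.

The pairs `(j, d)` modulo `p` and the short equations modulo `p` have nearly the same law of the
angle, so (2) uses the bounds for the local laws of the box family (Deuring's theorem, class
numbers), independence at different primes over the pairs `(j, d)`, and the fact that the folded
discrepancy is nearly the same for all twists.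
-/

namespace Pool.Agent.Results.MP_29be01_nt.TwistFamilies

open Pool.Agent.H11.STA Pool.Agent.H13.TWJ Finset

open Classical in
/-- (1) Let `E : y² = x³ + ax + b` be an elliptic curve with integer coefficients, `s ≥ 1` and
`ε, η > 0`. There is `C > 0` such that in every interval of `X` integers all but at most `η X` of
the `d` satisfy: for every `K ≥ 1` with `K^C ≤ X` the discrepancy of the twist `E_d` is within
`C K^(ε-1/2)` of the folded discrepancy of `E`, and at most twice the discrepancy of `E` plus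
`C K^(ε-1/2)`.

(2) For every `η > 0` there are constants `C s ε > 0` such that in every interval of `X` integers
all but at most `η X` of the `j` have the following two properties.
(a) `F_K^{[s]}(E_{j,d}) ≤ C s ε K^(ε-1/2) + s #{k < K : p_k ∣ d} / K` for all integers `d`, all
`s ≥ 1`, all `ε > 0` and all `K ≥ 1` with `K^(C s ε) ≤ X`, where `F` is the folded discrepancy.
(b) In every interval of `Y` integers all but at most `η Y` of the `d` satisfy
`D_K^{[s]}(E_{j,d}) ≤ C s ε K^(ε-1/2)` for all `s ≥ 1`, all `ε > 0` and all `K ≥ 1` with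
`K^(C s ε) ≤ min(X, Y)`. -/
theorem result :
    (∀ a b : ℤ, 4 * a ^ 3 + 27 * b ^ 2 ≠ 0 → ∀ s : ℕ, 1 ≤ s → ∀ ε η : ℝ, 0 < ε → 0 < η →
      ∃ C : ℝ, 0 < C ∧ ∀ (D : ℤ) (X : ℕ),
        (((Ico D (D + X)).filter (fun d : ℤ => ¬ ∀ K : ℕ, 1 ≤ K → (K : ℝ) ^ C ≤ (X : ℝ) →
          |extremeDisc (shortCurve ((d ^ 2 * a : ℤ) : ℚ) ((d ^ 3 * b : ℤ) : ℚ)) s K -
            foldDisc (shortCurve (a : ℚ) (b : ℚ)) s K| ≤ C * (K : ℝ) ^ (ε - 1 / 2) ∧
          extremeDisc (shortCurve ((d ^ 2 * a : ℤ) : ℚ) ((d ^ 3 * b : ℤ) : ℚ)) s K ≤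
            2 * extremeDisc (shortCurve (a : ℚ) (b : ℚ)) s K +
              C * (K : ℝ) ^ (ε - 1 / 2))).card : ℝ) ≤ η * X) ∧
    (∀ η : ℝ, 0 < η → ∃ C : ℕ → ℝ → ℝ, (∀ s ε, 0 < C s ε) ∧ ∀ (J : ℤ) (X : ℕ),
      (((Ico J (J + X)).filter (fun j : ℤ => ¬
        ((∀ s : ℕ, 1 ≤ s → ∀ ε : ℝ, 0 < ε → ∀ K : ℕ, 1 ≤ K → (K : ℝ) ^ C s ε ≤ X →
          ∀ d : ℤ, foldDisc (Ejd j d) s K ≤ C s ε * (K : ℝ) ^ (ε - 1 / 2) +
            s * (((range K).filter (fun k => ((Nat.nth Nat.Prime k : ℕ) : ℤ) ∣ d)).card : ℝ) / K) ∧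
        ∀ (D : ℤ) (Y : ℕ), (((Ico D (D + Y)).filter (fun d : ℤ => ¬
          ∀ s : ℕ, 1 ≤ s → ∀ ε : ℝ, 0 < ε → ∀ K : ℕ, 1 ≤ K →
            (K : ℝ) ^ C s ε ≤ min (X : ℝ) Y →
            extremeDisc (Ejd j d) s K ≤ C s ε * (K : ℝ) ^ (ε - 1 / 2))).card : ℝ) ≤
          η * Y))).card : ℝ) ≤ η * X) := by
  refine ⟨fun a b hΔ s hs ε η hε hη => ?_, fun η hη => almost_all_j η hη⟩
  have hab : a ≠ 0 ∨ b ≠ 0 := by
    by_contra hcon
    push Not at hcon
    apply hΔ
    rw [hcon.1, hcon.2]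
    norm_num
  obtain ⟨C, hC, h⟩ := twist_all a b hab s hs ε η hε hη
  refine ⟨C, hC, fun D X => le_trans ?_ (h D X)⟩
  have hsub : (Ico D (D + X)).filter (fun d : ℤ => ¬ ∀ K : ℕ, 1 ≤ K → (K : ℝ) ^ C ≤ (X : ℝ) →
        |extremeDisc (shortCurve ((d ^ 2 * a : ℤ) : ℚ) ((d ^ 3 * b : ℤ) : ℚ)) s K -
          foldDisc (shortCurve (a : ℚ) (b : ℚ)) s K| ≤ C * (K : ℝ) ^ (ε - 1 / 2) ∧
        extremeDisc (shortCurve ((d ^ 2 * a : ℤ) : ℚ) ((d ^ 3 * b : ℤ) : ℚ)) s K ≤
          2 * extremeDisc (shortCurve (a : ℚ) (b : ℚ)) s K + C * (K : ℝ) ^ (ε - 1 / 2)) ⊆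
      (Ico D (D + X)).filter (fun d => ¬ ∀ K : ℕ, 1 ≤ K → (K : ℝ) ^ C ≤ (X : ℝ) →
        |extremeDisc (shortCurve ((d ^ 2 * a : ℤ) : ℚ) ((d ^ 3 * b : ℤ) : ℚ)) s K -
          foldDisc (shortCurve (a : ℚ) (b : ℚ)) s K| ≤ C * (K : ℝ) ^ (ε - 1 / 2)) := by
    intro d hd
    rw [Finset.mem_filter] at hd ⊢
    refine ⟨hd.1, fun hall => hd.2 (fun K hK hKC => ⟨hall K hK hKC, ?_⟩)⟩
    have h1 := (abs_le.mp (hall K hK hKC)).2
    have h2 := foldDisc_le (shortCurve (a : ℚ) (b : ℚ)) s K hK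
    linarith
  exact_mod_cast Finset.card_le_card hsub

end Pool.Agent.Results.MP_29be01_nt.TwistFamilies
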