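import Mathlib
import Pool.Agent.H13.LIL.BoxBall
import Pool.Agent.H13.LIL.TwDens

/-!
# Lower bounds for the discrepancy of almost all elliptic curves and almost all twists

(1) The lower half of the law of the iterated logarithm: for almost all curves
`y² = x³ + ax + b` in large boxes, `√K · D_K^* ≥ (1/√2 - ε) √(log log K)` for some `K` in a
bounded range beyond any given `K₀`.

(2) For every `K` the proportion of the curves with `√K · D_K^* < δ` is `O(δ + K^(-1/4))`.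

(3) For every elliptic curve `E : y² = x³ + ax + b` with integer coefficients and almost all of its
quadratic twists `E_d : y² = x³ + d²ax + d³b`, `√K · D_K^*(E_d) ≥ (1/5) √(log log K)` for some `K`
in a bounded range beyond any given `K₀`.

(4) If a proportion at least `ρ` of the angles of `E` differ from `1/2` then `1/5` can be replaced
by `√(ρ/2) - ε`.

The traces of Frobenius at different primes are independent over the box, each is positive or
negative with equal probability (quadratic twists), and the probability that it is zero tends to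
zero on average over the primes (Deuring's theorem and bounds for class numbers). For one twist
family the zero traces are fixed; there are not too many, by the `2`-torsion.
-/

namespace Pool.Agent.Results.MP_29be01_nt.TypicalLower

open Pool.Agent.H11.STA Finset

open Classical in
/-- Let `s ≥ 1`.

(1) For `ε, η > 0` and `K₀` there are `K₁` and `X₀` such that in every box of integer pairs `(a, b)`
with sides `X, Y ≥ X₀` all but at most `η X Y` of the curves `E : y² = x³ + ax + b` have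
`(1/√2 - ε) √(log log K) ≤ √K · D_K^{*,[s]}(E)` for some `K₀ ≤ K ≤ K₁`.

(2) For `K ≥ 1`, `δ ≥ 0` and `η > 0` there is `X₀` such that in every such box at most
`(250 (δ + K^(-1/4)) + η) X Y` of the curves have `√K · D_K^{*,[s]}(E) < δ`.

(3) Let `E : y² = x³ + ax + b` be an elliptic curve with integer coefficients. For `η > 0` and `K₀`
there are `K₁` and `X₀` such that in every interval of `X ≥ X₀` integers all but at most `η X` of
the `d` have `(1/5) √(log log K) ≤ √K · D_K^{*,[s]}(E_d)` for some `K₀ ≤ K ≤ K₁`.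

(4) The same with the constant `√(ρ/2) - ε` in place of `1/5`, for every `ε > 0` and every
`0 < ρ ≤ 1` such that for all large `n` at least `ρ n` of the first `n` angles of `E` differ from
`1/2`. -/
theorem result : ∀ s : ℕ, 1 ≤ s →
    (∀ ε η : ℝ, 0 < ε → 0 < η → ∀ K₀ : ℕ, ∃ K₁ X₀ : ℕ,
      ∀ (A B : ℤ) (X Y : ℕ), X₀ ≤ X → X₀ ≤ Y →
        (((Ico A (A + X) ×ˢ Ico B (B + Y)).filter (fun w : ℤ × ℤ =>
          ¬ ∃ K : ℕ, K₀ ≤ K ∧ K ≤ K₁ ∧
            (1 / √2 - ε) * √(Real.log (Real.log K)) ≤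
              √(K : ℝ) * starDisc (shortCurve (w.1 : ℚ) (w.2 : ℚ)) s K)).card : ℝ) ≤
          η * (X * Y)) ∧
    (∀ K : ℕ, 1 ≤ K → ∀ δ η : ℝ, 0 ≤ δ → 0 < η → ∃ X₀ : ℕ,
      ∀ (A B : ℤ) (X Y : ℕ), X₀ ≤ X → X₀ ≤ Y →
        (((Ico A (A + X) ×ˢ Ico B (B + Y)).filter (fun w : ℤ × ℤ =>
          √(K : ℝ) * starDisc (shortCurve (w.1 : ℚ) (w.2 : ℚ)) s K < δ)).card : ℝ) ≤
          (250 * (δ + (K : ℝ) ^ (-(1 / 4) : ℝ)) + η) * (X * Y)) ∧
    (∀ a b : ℤ, 4 * a ^ 3 + 27 * b ^ 2 ≠ 0 → ∀ η : ℝ, 0 < η → ∀ K₀ : ℕ,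
      (∃ K₁ X₀ : ℕ, ∀ (D : ℤ) (X : ℕ), X₀ ≤ X →
        (((Ico D (D + X)).filter (fun d : ℤ => ¬ ∃ K : ℕ, K₀ ≤ K ∧ K ≤ K₁ ∧
          1 / 5 * √(Real.log (Real.log K)) ≤ √(K : ℝ) * starDisc
            (shortCurve ((d ^ 2 * a : ℤ) : ℚ) ((d ^ 3 * b : ℤ) : ℚ)) s K)).card : ℝ) ≤ η * X) ∧
      (∀ ε ρ : ℝ, 0 < ε → 0 < ρ → ρ ≤ 1 → (∃ N : ℕ, ∀ n : ℕ, N ≤ n → ρ * n ≤
          (((range n).filter (fun k =>
            angle (shortCurve (a : ℚ) (b : ℚ)) k ≠ 1 / 2)).card : ℝ)) →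
        ∃ K₁ X₀ : ℕ, ∀ (D : ℤ) (X : ℕ), X₀ ≤ X →
          (((Ico D (D + X)).filter (fun d : ℤ => ¬ ∃ K : ℕ, K₀ ≤ K ∧ K ≤ K₁ ∧
            (√(ρ / 2) - ε) * √(Real.log (Real.log K)) ≤ √(K : ℝ) * starDisc
              (shortCurve ((d ^ 2 * a : ℤ) : ℚ) ((d ^ 3 * b : ℤ) : ℚ)) s K)).card : ℝ) ≤
            η * X)) := by
  intro s hs
  refine ⟨fun ε η hε hη K₀ => ?_, fun K hK δ η hδ hη => ?_, fun a b hΔ η hη K₀ => ⟨?_, ?_⟩⟩
  · obtain ⟨K₁, h⟩ := Pool.Agent.H13.LIL.box_lil s hs ε hε K₀ (η / 2) (by positivity)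
    obtain ⟨X₀, hX₀⟩ := h (η / 2) (by positivity)
    refine ⟨K₁, X₀, fun A B X Y hX hY => ?_⟩
    have h1 := hX₀ A B X Y hX hY
    rw [add_halves] at h1
    exact le_trans (Nat.cast_le.mpr (Pool.Agent.H13.LIL.card_filter_any
      (fun _ _ hw => hw))) h1
  · obtain ⟨X₀, hX₀⟩ := Pool.Agent.H13.LIL.box_ball s hs K hK δ hδ η hη
    refine ⟨X₀, fun A B X Y hX hY => ?_⟩
    exact le_trans (Nat.cast_le.mpr (Pool.Agent.H13.LIL.card_filter_any
      (fun _ _ hw => hw))) (hX₀ A B X Y hX hY)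
  · -- the constant `1/5` is smaller than `√(1/24)`
    have h5 : (1 : ℝ) / 5 < √(1 / 12 / 2) := by
      apply Real.lt_sqrt_of_sq_lt
      norm_num
    obtain ⟨K₁, X₀, h⟩ := Pool.Agent.H13.LIL.twist_lil a b hΔ (1 / 12) (by norm_num)
      (by norm_num) (Pool.Agent.H13.LIL.tw_rich a b hΔ) s hs (√(1 / 12 / 2) - 1 / 5)
      (by linarith) K₀ η hη
    refine ⟨K₁, X₀, fun D X hX => ?_⟩
    have h1 := h D X hX
    rw [sub_sub_cancel] at h1
    exact h1
  · intro ε ρ hε hρ hρ1 hd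
    exact Pool.Agent.H13.LIL.twist_lil a b hΔ ρ hρ hρ1
      (Pool.Agent.H13.LIL.tw_rich_density a b hΔ ρ hd) s hs ε hε K₀ η hη

end Pool.Agent.Results.MP_29be01_nt.TypicalLower
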